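import Pool.Agent.helper616_TN.Main2

/-!
# Prime values of almost every real polynomial in windows at the mean spacing

For almost every real polynomial `f` of degree `m` with positive leading coefficient, the frequency of the windows of
`l m log N` consecutive integers `n` for which exactly `j` of the values `⌊f(n)⌋` are prime is, in the limit, that of
the Poisson law up to an error which is super-exponentially small in the degree.

Proof: the formula for `k`-tuples of prime values, uniformly in the shifts, for almost every `f` (the second moment over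
the coefficients; the primes in almost all intervals of length `x ^ (1 / 3 + ε)`), hence the factorial moments of
order less than `(2 m + 6) / 9` (Gallagher), and the inequalities of Bonferroni.
-/

set_option autoImplicit false

open Filter Topology MeasureTheory

namespace Pool.Agent.Results.MP_76b9e7_nt.RandomPolynomialWindows

/-- The value at `x` of the polynomial with the coefficients `a 0, …, a m`. -/
noncomputable def value {m : ℕ} (a : Fin (m + 1) → ℝ) (x : ℕ) : ℝ := ∑ k, a k * (x : ℝ) ^ (k : ℕ)

/-- The number of the `i`, `1 ≤ i ≤ L`, for which `⌊f(n + i)⌋` is prime. -/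
noncomputable def count {m : ℕ} (a : Fin (m + 1) → ℝ) (L n : ℕ) : ℕ :=
  Set.ncard {i : ℕ | 1 ≤ i ∧ i ≤ L ∧ (⌊value a (n + i)⌋₊).Prime}

/-- The proportion of the `n < N` for which `⌊f(n + i)⌋` is prime for exactly `j` of the `i ≤ L`. -/
noncomputable def frequency {m : ℕ} (a : Fin (m + 1) → ℝ) (L N j : ℕ) : ℝ :=
  (Set.ncard {n : ℕ | n < N ∧ count a L n = j} : ℝ) / N

/-- For almost all polynomials `f` of degree `m` with positive leading coefficient: if `L(N) / (m log N) → l`, `1 ≤ r`
and `9 (j + r) < 2 m + 6`, then the proportion of the `n < N` for which exactly `j` of the values `⌊f(n + i)⌋`,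
`1 ≤ i ≤ L(N)`, are prime differs from `exp (-l) l ^ j / j!` by at most `2 l ^ (j + r) / (j! r!) + o(1)`. -/
theorem result (m : ℕ) : ∀ᵐ a : Fin (m + 1) → ℝ, 0 < a (Fin.last m) →
    ∀ (l : ℝ) (L : ℕ → ℕ), Tendsto (fun N : ℕ => (L N : ℝ) / (m * Real.log N)) atTop (𝓝 l) →
      ∀ j r : ℕ, 1 ≤ r → 9 * (j + r) < 2 * m + 6 → ∀ ε : ℝ, 0 < ε → ∀ᶠ N : ℕ in atTop,
        |frequency a (L N) N j - Real.exp (-l) * l ^ j / (j.factorial : ℝ)| ≤
          2 * (l ^ (j + r) / ((j.factorial : ℝ) * r.factorial)) + ε := by
  classical
  filter_upwards [Pool.Agent.helper616_TN.windows m] with a ha h0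
  obtain ⟨-, h2⟩ := ha h0
  intro l L hL j r hr hjr ε hε
  filter_upwards [h2 l L hL j r hr hjr ε hε] with N hN
  have e1 : ∀ n, count a (L N) n = ((Finset.Icc 1 (L N)).filter
      (fun i => (⌊Pool.Agent.helper616_TM.val a (n + i)⌋₊).Prime)).card := by
    intro n
    unfold count
    rw [← Set.ncard_coe_finset]
    congr 1
    ext i
    simp only [Set.mem_ofPred_eq, Finset.coe_filter, Finset.mem_Icc, and_assoc]
    rfl
  have e2 : frequency a (L N) N j = (((Finset.range N).filter (fun n => ((Finset.Icc 1 (L N)).filter
      (fun i => (⌊Pool.Agent.helper616_TM.val a (n + i)⌋₊).Prime)).card = j)).card : ℝ) / N := by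
    unfold frequency
    congr 2
    rw [← Set.ncard_coe_finset]
    congr 1
    ext n
    simp only [Set.mem_ofPred_eq, Finset.coe_filter, Finset.mem_range, e1]
  rw [e2]
  exact hN

end Pool.Agent.Results.MP_76b9e7_nt.RandomPolynomialWindows
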